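import Mathlib

/-!
# Project RT (helper760), job RT-DIM: the codimension of an ideal generated by two relatively prime
polynomials
-/

set_option autoImplicit false

namespace Pool.Agent.Y419.RT

open MvPolynomial

/-! ## the product estimate -/

theorem prod_est {ι : Type} (s : Finset ι) (a : ι → ℝ) : ∃ c : ℝ, 0 ≤ c ∧ ∀ x : ℝ, 1 ≤ x →
    |x ^ 2 * ∏ i ∈ s, (x - a i) - x ^ (s.card + 2) + (∑ i ∈ s, a i) * x ^ (s.card + 1)| ≤
      c * x ^ s.card := by
  classical
  induction s using Finset.induction_on with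
  | empty =>
    refine ⟨0, le_rfl, fun x _ => ?_⟩
    simp
  | insert j s hj ih =>
    obtain ⟨c, hc, h⟩ := ih
    set σ := ∑ i ∈ s, a i with hσ
    refine ⟨c + |a j * σ| + |a j| * c, by positivity, fun x hx => ?_⟩
    have hx0 : 0 ≤ x := by linarith
    have hE := h x hx
    set k := s.card with hk
    set E := x ^ 2 * ∏ i ∈ s, (x - a i) - x ^ (k + 2) + σ * x ^ (k + 1) with hEd
    rw [Finset.prod_insert hj, Finset.sum_insert hj, Finset.card_insert_of_notMem hj, ← hk, ← hσ]
    have e : x ^ 2 * ((x - a j) * ∏ i ∈ s, (x - a i)) - x ^ (k + 1 + 2) +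
        (a j + σ) * x ^ (k + 1 + 1) = x * E + a j * σ * x ^ (k + 1) - a j * E := by
      rw [hEd]
      ring
    rw [e]
    have hxk : x ^ k ≤ x ^ (k + 1) := pow_le_pow_right₀ hx (by omega)
    have hk0 : 0 ≤ x ^ k := by positivity
    have h1 : |x * E| ≤ c * x ^ (k + 1) := by
      rw [abs_mul, abs_of_nonneg hx0]
      calc x * |E| ≤ x * (c * x ^ k) := mul_le_mul_of_nonneg_left hE hx0
        _ = c * x ^ (k + 1) := by ring
    have h2 : |a j * σ * x ^ (k + 1)| = |a j * σ| * x ^ (k + 1) := by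
      rw [abs_mul, abs_of_nonneg (pow_nonneg hx0 _)]
    have h3 : |a j * E| ≤ |a j| * c * x ^ (k + 1) := by
      rw [abs_mul]
      calc |a j| * |E| ≤ |a j| * (c * x ^ k) := mul_le_mul_of_nonneg_left hE (abs_nonneg _)
        _ ≤ |a j| * (c * x ^ (k + 1)) := by gcongr
        _ = _ := by ring
    calc |x * E + a j * σ * x ^ (k + 1) - a j * E| ≤ |x * E| + |a j * σ * x ^ (k + 1)| +
          |a j * E| := (abs_sub _ _).trans (add_le_add (abs_add_le _ _) le_rfl)
      _ ≤ c * x ^ (k + 1) + |a j * σ| * x ^ (k + 1) + |a j| * c * x ^ (k + 1) := by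
          rw [h2]; gcongr
      _ = _ := by ring

/-! ## spaces of polynomials -/

section spaces

variable (K : Type) [Field K] {m : ℕ}

/-- the polynomials of degree at most `n i` in the variable `i` -/
noncomputable def V (n : Fin m → ℕ) : Submodule K (MvPolynomial (Fin m) K) :=
  restrictSupport K {g | ∀ i, g i ≤ n i}

variable {K}

theorem mem_V {n : Fin m → ℕ} {p : MvPolynomial (Fin m) K} :
    p ∈ V K n ↔ ∀ g ∈ p.support, ∀ i, g i ≤ n i := by
  unfold V
  rw [mem_restrictSupport_iff]
  rfl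

theorem mem_V_deg {n : Fin m → ℕ} {p : MvPolynomial (Fin m) K} :
    p ∈ V K n ↔ ∀ i, degreeOf i p ≤ n i := by
  rw [mem_V]
  constructor
  · intro h i
    rw [degreeOf_le_iff]
    exact fun g hg => h g hg i
  · intro h g hg i
    exact degreeOf_le_iff.1 (h i) g hg

/-- the exponents -/
noncomputable def expEquiv (n : Fin m → ℕ) : {g : Fin m →₀ ℕ | ∀ i, g i ≤ n i} ≃ (∀ i, Fin (n i + 1)) where
  toFun g := fun i => ⟨g.1 i, Nat.lt_succ_of_le (g.2 i)⟩
  invFun f := ⟨Finsupp.equivFunOnFinite.symm fun i => (f i : ℕ), fun i => Nat.le_of_lt_succ (f i).2⟩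
  left_inv g := by
    apply Subtype.ext
    ext i
    rfl
  right_inv f := by
    funext i
    rfl

theorem finrank_V (n : Fin m → ℕ) : Module.finrank K (V K n) = ∏ i, (n i + 1) := by
  have h1 : Module.finrank K (V K n) = Nat.card {g : Fin m →₀ ℕ | ∀ i, g i ≤ n i} :=
    Module.finrank_eq_nat_card_basis (basisRestrictSupport K {g : Fin m →₀ ℕ | ∀ i, g i ≤ n i})
  rw [h1, Nat.card_congr (expEquiv n), Nat.card_pi]
  simp

theorem finite_V (n : Fin m → ℕ) : Module.Finite K (V K n) := by
  have : Finite {g : Fin m →₀ ℕ | ∀ i, g i ≤ n i} := Finite.of_equiv _ (expEquiv n).symm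
  exact Module.Finite.of_basis (basisRestrictSupport K {g : Fin m →₀ ℕ | ∀ i, g i ≤ n i})

/-- multiplication by `A` -/
noncomputable def mulA (A : MvPolynomial (Fin m) K) :
    MvPolynomial (Fin m) K →ₗ[K] MvPolynomial (Fin m) K := LinearMap.mulRight K A

theorem mulA_apply (A p : MvPolynomial (Fin m) K) : mulA A p = p * A := rfl

theorem mulA_inj {A : MvPolynomial (Fin m) K} (hA : A ≠ 0) : Function.Injective (mulA A) := by
  intro p q h
  rw [mulA_apply, mulA_apply] at h
  exact mul_right_cancel₀ hA h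

theorem finrank_map_mulA {A : MvPolynomial (Fin m) K} (hA : A ≠ 0) (n : Fin m → ℕ) :
    Module.finrank K ((V K n).map (mulA A)) = ∏ i, (n i + 1) := by
  rw [← finrank_V (K := K) n]
  exact ((Submodule.equivMapOfInjective (mulA A) (mulA_inj hA) (V K n)).finrank_eq).symm

end spaces

/-! ## the polynomial with given coefficients -/

section pol

/-- the polynomial with given coefficients, of degree at most `N` in every variable -/
noncomputable def pol (K : Type) [Field K] (m N : ℕ) :
    ((Fin m → Fin (N + 1)) → K) →ₗ[K] MvPolynomial (Fin m) K :=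
  ∑ g : Fin m → Fin (N + 1), (MvPolynomial.monomial
    (Finsupp.equivFunOnFinite.symm fun i => (g i : ℕ))).comp (LinearMap.proj g)

/-- the elements of the ideal generated by `A` and `A'`, of degree at most `N` in every variable -/
noncomputable def WW {K : Type} [Field K] {m : ℕ} (A A' : MvPolynomial (Fin m) K) (N : ℕ) :
    Submodule K ((Fin m → Fin (N + 1)) → K) :=
  ((Ideal.span {A, A'}).restrictScalars K).comap (pol K m N)

theorem pol_surj {K : Type} [Field K] {m : ℕ} (N : ℕ) {p : MvPolynomial (Fin m) K}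
    (hp : p ∈ V K (fun _ : Fin m => N)) : ∃ w, pol K m N w = p := by
  classical
  rw [mem_V] at hp
  refine ⟨fun g => p.coeff (Finsupp.equivFunOnFinite.symm fun i => (g i : ℕ)), ?_⟩
  ext e
  unfold pol
  rw [LinearMap.sum_apply, coeff_sum]
  simp only [LinearMap.comp_apply, LinearMap.proj_apply, coeff_monomial]
  by_cases he : ∀ i, e i ≤ N
  · set g0 : Fin m → Fin (N + 1) := fun i => ⟨e i, Nat.lt_succ_of_le (he i)⟩ with hg0
    have h0 : (Finsupp.equivFunOnFinite.symm fun i => ((g0 i : Fin (N + 1)) : ℕ)) = e := by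
      ext i
      rfl
    rw [Finset.sum_eq_single g0]
    · rw [if_pos h0, h0]
    · intro g _ hg
      rw [if_neg]
      intro h
      apply hg
      funext i
      apply Fin.ext
      have h1 := congrArg (fun f : Fin m →₀ ℕ => f i) h
      exact h1
    · intro h
      exact absurd (Finset.mem_univ _) h
  · rw [Finset.sum_eq_zero]
    · symm
      by_contra hne
      exact he (hp e (mem_support_iff.2 hne))
    · intro g _
      rw [if_neg]
      intro h
      apply he
      intro i
      rw [← h]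
      exact Nat.le_of_lt_succ (g i).2

end pol

section main

variable {K : Type} [Field K] {m : ℕ}

theorem inter_le {A A' : MvPolynomial (Fin m) K} (hA : A ≠ 0) (hA' : A' ≠ 0)
    (hrel : IsRelPrime A A') (n : Fin m → ℕ) (n1 n3 : Fin m → ℕ)
    (h1 : ∀ i, n1 i + degreeOf i A = n i) (h3 : ∀ i, n3 i + degreeOf i A + degreeOf i A' = n i)
    (n2 : Fin m → ℕ) :
    (V K n1).map (mulA A) ⊓ (V K n2).map (mulA A') ≤ (V K n3).map (mulA (A * A')) := by
  rintro p ⟨⟨a, ha, rfl⟩, ⟨b, hb, hab⟩⟩
  rw [mulA_apply, mulA_apply] at hab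
  have hd : A' ∣ a * A := ⟨b, by rw [← hab, mul_comm]⟩
  have hd2 : A' ∣ a := hrel.symm.dvd_of_dvd_mul_right hd
  obtain ⟨f, rfl⟩ := hd2
  refine ⟨f, ?_, ?_⟩
  · rw [SetLike.mem_coe, mem_V_deg]
    rw [SetLike.mem_coe, mem_V_deg] at ha
    intro i
    by_cases hf : f = 0
    · rw [hf, degreeOf_zero]
      exact Nat.zero_le _
    · have h4 := ha i
      rw [degreeOf_mul_eq hA' hf] at h4
      have h5 := h1 i
      have h6 := h3 i
      omega
  · rw [mulA_apply, mulA_apply]
    ring

theorem finrank_ge {A A' : MvPolynomial (Fin m) K} (hA : A ≠ 0) (hA' : A' ≠ 0)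
    (hrel : IsRelPrime A A') (N : ℕ) (hN : ∀ i, degreeOf i A + degreeOf i A' ≤ N) :
    ∏ i, (N - degreeOf i A + 1) + ∏ i, (N - degreeOf i A' + 1) ≤
      Module.finrank K (WW A A' N) + ∏ i, (N - degreeOf i A - degreeOf i A' + 1) := by
  set n1 : Fin m → ℕ := fun i => N - degreeOf i A with hn1
  set n2 : Fin m → ℕ := fun i => N - degreeOf i A' with hn2
  set n3 : Fin m → ℕ := fun i => N - degreeOf i A - degreeOf i A' with hn3
  have f1 := finite_V (K := K) n1
  have f2 := finite_V (K := K) n2
  have f3 := finite_V (K := K) n3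
  set s := (V K n1).map (mulA A) with hs
  set t := (V K n2).map (mulA A') with ht
  have hfs : FiniteDimensional K s := inferInstance
  have hft : FiniteDimensional K t := inferInstance
  have h1 := Submodule.finrank_sup_add_finrank_inf_eq s t
  have hs1 : Module.finrank K s = ∏ i, (n1 i + 1) := finrank_map_mulA hA n1
  have ht1 : Module.finrank K t = ∏ i, (n2 i + 1) := finrank_map_mulA hA' n2
  have h2 : Module.finrank K (s ⊓ t : Submodule K (MvPolynomial (Fin m) K)) ≤
      ∏ i, (n3 i + 1) := by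
    rw [← finrank_map_mulA (mul_ne_zero hA hA') n3]
    refine Submodule.finrank_mono (inter_le hA hA' hrel (fun _ => N) n1 n3 ?_ ?_ n2)
    · intro i
      have := hN i
      simp only [hn1]
      omega
    · intro i
      have := hN i
      simp only [hn3]
      omega
  have hle : s ⊔ t ≤ (WW A A' N).map (pol K m N) := by
    have key : ∀ p : MvPolynomial (Fin m) K, p ∈ V K (fun _ : Fin m => N) →
        p ∈ Ideal.span {A, A'} → p ∈ (WW A A' N).map (pol K m N) := by
      intro p hp hpI
      obtain ⟨w, hw⟩ := pol_surj N hp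
      refine ⟨w, ?_, hw⟩
      change pol K m N w ∈ Ideal.span {A, A'}
      rw [hw]
      exact hpI
    refine sup_le ?_ ?_
    · rintro p ⟨a, ha, rfl⟩
      apply key
      · rw [mulA_apply, mem_V_deg]
        rw [SetLike.mem_coe, mem_V_deg] at ha
        intro i
        have h4 := degreeOf_mul_le i a A
        have h5 := ha i
        have h6 := hN i
        simp only [hn1] at h5
        omega
      · rw [mulA_apply]
        exact Ideal.mul_mem_left _ _ (Ideal.subset_span (by simp))
    · rintro p ⟨a, ha, rfl⟩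
      apply key
      · rw [mulA_apply, mem_V_deg]
        rw [SetLike.mem_coe, mem_V_deg] at ha
        intro i
        have h4 := degreeOf_mul_le i a A'
        have h5 := ha i
        have h6 := hN i
        simp only [hn2] at h5
        omega
      · rw [mulA_apply]
        exact Ideal.mul_mem_left _ _ (Ideal.subset_span (by simp))
  have h3 : Module.finrank K (s ⊔ t : Submodule K (MvPolynomial (Fin m) K)) ≤
      Module.finrank K (WW A A' N) := by
    have hfin : FiniteDimensional K ((WW A A' N).map (pol K m N)) := inferInstance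
    exact (Submodule.finrank_mono hle).trans (Submodule.finrank_map_le (pol K m N) (WW A A' N))
  rw [hs1, ht1] at h1
  have e1 : ∏ i, (n1 i + 1) = ∏ i, (N - degreeOf i A + 1) := rfl
  have e2 : ∏ i, (n2 i + 1) = ∏ i, (N - degreeOf i A' + 1) := rfl
  have e3 : ∏ i, (n3 i + 1) = ∏ i, (N - degreeOf i A - degreeOf i A' + 1) := rfl
  rw [e3] at h2
  rw [e1, e2] at h1
  omega

theorem dim_core (A A' : MvPolynomial (Fin m) K) (hA : A ≠ 0) (hA' : A' ≠ 0)
    (hrel : IsRelPrime A A') : ∃ c : ℝ, ∀ N : ℕ,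
      ((N : ℝ) + 1) ^ 2 * (((N : ℝ) + 1) ^ m - Module.finrank K (WW A A' N)) ≤
        c * ((N : ℝ) + 1) ^ m := by
  classical
  obtain ⟨c1, hc1, h1⟩ := prod_est (Finset.univ : Finset (Fin m)) (fun i => (degreeOf i A : ℝ))
  obtain ⟨c2, hc2, h2⟩ := prod_est (Finset.univ : Finset (Fin m)) (fun i => (degreeOf i A' : ℝ))
  obtain ⟨c3, hc3, h3⟩ := prod_est (Finset.univ : Finset (Fin m))
    (fun i => (degreeOf i A : ℝ) + degreeOf i A')
  set N0 : ℕ := ∑ i, (degreeOf i A + degreeOf i A') with hN0
  refine ⟨c1 + c2 + c3 + ((N0 : ℝ) + 1) ^ 2, ?_⟩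
  intro N
  set x : ℝ := (N : ℝ) + 1 with hx
  have hx1 : 1 ≤ x := by
    rw [hx]
    have : (0 : ℝ) ≤ N := Nat.cast_nonneg _
    linarith
  have hx0 : 0 ≤ x := by linarith
  have hxm : 0 ≤ x ^ m := pow_nonneg hx0 _
  have hW : (0 : ℝ) ≤ Module.finrank K (WW A A' N) := Nat.cast_nonneg _
  by_cases hN : N0 ≤ N
  · have hNi : ∀ i, degreeOf i A + degreeOf i A' ≤ N := fun i =>
      (Finset.single_le_sum (f := fun i => degreeOf i A + degreeOf i A')
        (fun _ _ => Nat.zero_le _) (Finset.mem_univ i)).trans hN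
    have hge := finrank_ge hA hA' hrel N hNi
    have hgeR : ∏ i, (x - (degreeOf i A : ℝ)) + ∏ i, (x - (degreeOf i A' : ℝ)) ≤
        Module.finrank K (WW A A' N) + ∏ i, (x - ((degreeOf i A : ℝ) + degreeOf i A')) := by
      have e1 : ∏ i, (x - (degreeOf i A : ℝ)) = ((∏ i, (N - degreeOf i A + 1) : ℕ) : ℝ) := by
        rw [Nat.cast_prod]
        refine Finset.prod_congr rfl fun i _ => ?_
        have := hNi i
        rw [hx]
        push_cast [Nat.cast_sub (show degreeOf i A ≤ N by omega)]
        ring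
      have e2 : ∏ i, (x - (degreeOf i A' : ℝ)) = ((∏ i, (N - degreeOf i A' + 1) : ℕ) : ℝ) := by
        rw [Nat.cast_prod]
        refine Finset.prod_congr rfl fun i _ => ?_
        have := hNi i
        rw [hx]
        push_cast [Nat.cast_sub (show degreeOf i A' ≤ N by omega)]
        ring
      have e3 : ∏ i, (x - ((degreeOf i A : ℝ) + degreeOf i A')) =
          ((∏ i, (N - degreeOf i A - degreeOf i A' + 1) : ℕ) : ℝ) := by
        rw [Nat.cast_prod]
        refine Finset.prod_congr rfl fun i _ => ?_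
        have := hNi i
        rw [hx, Nat.sub_sub]
        push_cast [Nat.cast_sub (show degreeOf i A + degreeOf i A' ≤ N by omega)]
        ring
      rw [e1, e2, e3]
      exact_mod_cast hge
    have k1 := abs_le.1 (h1 x hx1)
    have k2 := abs_le.1 (h2 x hx1)
    have k3 := abs_le.1 (h3 x hx1)
    rw [Finset.card_univ, Fintype.card_fin] at k1 k2 k3
    rw [Finset.sum_add_distrib] at k3
    have hx2 : 0 ≤ x ^ 2 := by positivity
    have h4 := mul_le_mul_of_nonneg_left hgeR hx2
    have h5 : 0 ≤ ((N0 : ℝ) + 1) ^ 2 * x ^ m := by positivity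
    have e4 : x ^ (m + 2) = x ^ 2 * x ^ m := by ring
    rw [e4] at k1 k2 k3
    nlinarith [k1.1, k2.1, k3.2]
  · have h4 : x ≤ (N0 : ℝ) + 1 := by
      rw [hx]
      have : (N : ℝ) ≤ N0 := by exact_mod_cast (not_le.1 hN).le
      linarith
    have h5 : x ^ 2 ≤ ((N0 : ℝ) + 1) ^ 2 := pow_le_pow_left₀ hx0 h4 2
    calc x ^ 2 * (x ^ m - Module.finrank K (WW A A' N)) ≤ x ^ 2 * x ^ m := by
          refine mul_le_mul_of_nonneg_left (by linarith) (by positivity)
      _ ≤ ((N0 : ℝ) + 1) ^ 2 * x ^ m := mul_le_mul_of_nonneg_right h5 hxm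
      _ ≤ (c1 + c2 + c3 + ((N0 : ℝ) + 1) ^ 2) * x ^ m :=
          mul_le_mul_of_nonneg_right (by linarith) hxm

end main

end Pool.Agent.Y419.RT
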