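import Pool.Agent.Y760.RT.Stm
import Pool.Agent.Y419.RT.DimCore

/-!
# Project RT (helper760), job RT-DIM
-/

set_option autoImplicit false

namespace Pool.Agent.Y419.RT

theorem dim : Pool.Agent.Y760.RT.DimStmt := by
  intro K _ m A A' hA hA' hrel
  exact dim_core A A' hA hA' hrel

end Pool.Agent.Y419.RT
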